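import Pool.Agent.W37.SG.Stm

/-!
# SG-XP: the powers of the special element
-/

set_option autoImplicit false

namespace Pool.Agent.W753.SG

open Pool.Agent.W37.SG

theorem U_zero {p : ℕ} {f : Fn p} (hf : f ∈ U p 0) : f = 0 := by
  have h : ({f | ∃ i < 0, f = mon p i} : Set (Fn p)) = ∅ := by
    ext f
    simp
  unfold U at hf
  rw [h, Submodule.span_empty] at hf
  exact (Submodule.mem_bot _).1 hf

theorem digit {p : ℕ} (hp : 1 < p) (j k : ℕ) : p ^ j / p ^ k % p = if k = j then 1 else 0 := by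
  split_ifs with h
  · subst h
    rw [Nat.div_self (pow_pos (by omega) _), Nat.mod_eq_of_lt hp]
  · rcases lt_or_gt_of_ne h with h | h
    · obtain ⟨t, rfl⟩ := Nat.exists_eq_add_of_lt h
      rw [show k + t + 1 = k + (t + 1) by ring, pow_add, Nat.mul_div_cancel_left _
        (pow_pos (by omega) _), pow_succ, Nat.mul_mod_left]
    · rw [Nat.div_eq_of_lt (Nat.pow_lt_pow_right hp h), Nat.zero_mod]

theorem mon_pow {p : ℕ} (hp : 1 < p) (j : ℕ) (x : ℕ → ZMod p) : mon p (p ^ j) x = x j := by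
  unfold mon
  rw [Finset.prod_eq_single j]
  · rw [digit hp, if_pos rfl, pow_one]
  · intro k _ hk
    rw [digit hp, if_neg hk, pow_zero]
  · intro h
    exact absurd (Finset.mem_range.2 (Nat.lt_pow_self hp)) h

theorem mon_zero {p : ℕ} (x : ℕ → ZMod p) : mon p 0 x = 1 := by
  unfold mon
  simp

theorem main : S_XP := by
  intro _ _ _ hDC p _ s Q X _ hX m
  have hp : 1 < p := (Fact.out : p.Prime).one_lt
  have key : Dep p (p ^ (s + m)) (X ^ p ^ m) ∧
      (∃ a : ℕ → ZMod p, Lead p (p ^ (s + m)) (X ^ p ^ m) a ∧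
        ∀ i, p ^ (s + m) ≤ i → a i ≠ 0) := by
    induction m with
    | zero => simpa using ⟨hX.dep, hX.lead⟩
    | succ m ih =>
      obtain ⟨hd, a, ha, hn⟩ := ih
      have h1 : 1 ≤ p ^ (s + m) := Nat.one_le_pow _ _ (by omega)
      obtain ⟨-, -, -, h2, h3⟩ := hDC p (p ^ (s + m)) (p ^ (s + m)) _ _ a a h1 h1 hd hd ha ha
      have e1 : p * p ^ (s + m) = p ^ (s + (m + 1)) := by
        rw [← add_assoc, pow_succ, mul_comm]
      rw [← pow_mul, ← pow_succ, e1] at h2 h3
      refine ⟨h2, _, h3, fun i hi => ?_⟩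
      rw [Finset.prod_ne_zero_iff]
      intro l hl
      apply hn
      have hl' : l + 1 ≤ p := Finset.mem_range.1 hl
      have h4 : (l + 1) * p ^ (s + m) ≤ p * p ^ (s + m) := Nat.mul_le_mul_right _ hl'
      rw [e1] at h4
      rw [add_mul, one_mul] at h4
      omega
  obtain ⟨hd, a, ha, hn⟩ := key
  refine ⟨hd, ⟨a, ha, hn⟩, ?_, a (p ^ (s + m)), hn _ le_rfl, ?_⟩
  · intro x j hj
    have h1 := hd (p ^ (s + m)) (mon p (p ^ j)) (Submodule.subset_span
      ⟨p ^ j, Nat.pow_lt_pow_right hp hj, rfl⟩)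
    rw [Nat.sub_self] at h1
    have h2 := congrFun (U_zero h1) x
    simp only [mon_pow hp] at h2
    exact sub_eq_zero.1 h2
  · intro x
    have h1 := ha (p ^ (s + m)) le_rfl
    rw [Nat.sub_self] at h1
    have h2 := congrFun (U_zero h1) x
    simp only [mon_pow hp, mon_zero, mul_one, Pi.zero_apply] at h2
    have h3 := sub_eq_zero.1 h2
    rw [← h3]
    ring

end Pool.Agent.W753.SG
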