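import Pool.Agent.W398.SG.Stm

/-!
# SG-CODE: pigeon hole principle for the data
-/

set_option autoImplicit false

namespace Pool.Agent.W753.SG.Code

open Pool.Agent.W37.SG Pool.Agent.W398.SG

/-- the reduced tables -/
abbrev Cd (p m d n : ℕ) : Type :=
  (Fin n → Fin n → Fin n) × (Fin n → Fin d → Fin d → ZMod (p ^ m)) ×
    (Fin n → Fin n → Fin d → ZMod (p ^ m))

/-- the codes -/
abbrev FC (p m D B : ℕ) : Type :=
  Σ d : Fin (D + 1), Σ n : Fin (B + 1), Cd p m d n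

/-- the code of a datum -/
noncomputable def code {p : ℕ} [Fact p.Prime] (m D B : ℕ) (X : Dat p) (h : X.d ≤ D)
    (h' : X.n ≤ B) : FC p m D B :=
  ⟨⟨X.d, Nat.lt_succ_of_le h⟩, ⟨X.n, Nat.lt_succ_of_le h'⟩,
    (fun a b => X.G.mul a b), (fun g a b => PadicInt.toZModPow m (X.rho g a b)),
    fun g k a => PadicInt.toZModPow m (X.f g k a)⟩

theorem dvd_of_eq {p : ℕ} [Fact p.Prime] {m : ℕ} {x y : ℤ_[p]}
    (h : PadicInt.toZModPow m x = PadicInt.toZModPow m y) : (p : ℤ_[p]) ^ m ∣ x - y := by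
  have h1 : x - y ∈ RingHom.ker (PadicInt.toZModPow (p := p) m) := by
    rw [RingHom.mem_ker, map_sub, h, sub_self]
  rw [PadicInt.ker_toZModPow, Ideal.mem_span_singleton] at h1
  exact h1

theorem code_eq {p : ℕ} [Fact p.Prime] {m D B : ℕ} (X Y : Dat p) (h : X.d ≤ D)
    (h' : X.n ≤ B) (k : Y.d ≤ D) (k' : Y.n ≤ B) (e : code m D B X h h' = code m D B Y k k') :
    ∃ (d n : ℕ) (G : Group (Fin n)) (ρ ρ' : Fin n → Mat p d)
      (f f' : Fin n → Fin n → Lat p d), X = ⟨d, n, G, ρ, f⟩ ∧ Y = ⟨d, n, G, ρ', f'⟩ ∧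
      (∀ g a b, (p : ℤ_[p]) ^ m ∣ ρ g a b - ρ' g a b) ∧
      (∀ g h a, (p : ℤ_[p]) ^ m ∣ f g h a - f' g h a) := by
  obtain ⟨d, n, G, ρ, f⟩ := X
  obtain ⟨d', n', G', ρ', f'⟩ := Y
  have e1 : d = d' := congrArg (fun c : FC p m D B => (c.1 : ℕ)) e
  have e2 : n = n' := congrArg (fun c : FC p m D B => (c.2.1 : ℕ)) e
  subst e1
  subst e2
  simp only [code, Sigma.mk.injEq, heq_eq_eq, true_and, Prod.mk.injEq] at e
  obtain ⟨e1, e2, e3⟩ := e
  have e4 : G = G' := by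
    apply Group.ext
    exact e1
  subst e4
  refine ⟨d, n, G, ρ, ρ', f, f', rfl, rfl, fun g a b => dvd_of_eq ?_, fun g k a => dvd_of_eq ?_⟩
  · exact congrFun (congrFun (congrFun e2 g) a) b
  · exact congrFun (congrFun (congrFun e3 g) k) a

theorem main : S_CODE := by
  intro p _ D B m
  haveI : NeZero (p ^ m) := ⟨pow_ne_zero _ (Fact.out : p.Prime).ne_zero⟩
  refine ⟨Fintype.card (FC p m D B), fun X hX => ?_⟩
  obtain ⟨i, j, hij, he⟩ := Fintype.exists_ne_map_eq_of_card_lt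
    (fun i => code m D B (X i) (hX i).1 (hX i).2) (by simp)
  exact ⟨i, j, hij, code_eq _ _ _ _ _ _ he⟩

end Pool.Agent.W753.SG.Code
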